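import Pool.Agent.Results.MP_1660ca_co.DistributiveCount

set_option autoImplicit false

/-!
# Distributive intervals of the weak order: joint distribution of the row lengths, modular lattices, hexagons
-/

namespace Pool.Agent.Results.MP_1660ca_co.RowLengths

open Equiv
open Pool.Agent.Results.MP_1660ca_co.DistributiveCount

section weights

variable {R : Type*} [CommSemiring R]

/-- the weighted recursion: every insertion has the weight `φ` of the displacement -/
def Tw (φ : ℕ → R) : ℕ → ℕ → List Bool → List Bool → R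
  | 0, _, _, _ => 1
  | m + 1, δ, V, U =>
      ∑ y ∈ Finset.range (V.length + 1), ∑ x ∈ Finset.range (U.length + 1),
        if cnt y V = cnt x U ∧ y ≤ x + δ then
          φ (x + δ - y) * Tw φ m δ (insl y (decide (y < x + δ)) V) (insl x (decide (y < x + δ)) U)
        else 0

/-- The weighted recurrence: `Ww φ 0 a g h = 1` and `Ww φ (n+1) a g h` is
`φ 0 * max (g+1-a) 0 * Ww φ n a (g+1) (h+1)` plus the sum over `i ≤ g`, `j ≤ h` with `i < a + j` of
`φ (a+j-i) * ∑ k ≤ n, choose n k * Ww φ k a i j * Ww φ (n-k) (a+j-i) (g-i) (h-j)`. -/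
def Ww (φ : ℕ → R) : ℕ → ℕ → ℕ → ℕ → R
  | 0, _, _, _ => 1
  | n + 1, a, g, h =>
      φ 0 * (((g + 1 - a : ℕ) : R) * Ww φ n a (g + 1) (h + 1)) +
        ∑ i ∈ Finset.range (g + 1), ∑ j ∈ Finset.range (h + 1),
          if i < a + j then
            φ (a + j - i) * ∑ k : Fin (n + 1), (n.choose k.val : R) *
              (Ww φ k.val a i j * Ww φ (n - k.val) (a + j - i) (g - i) (h - j))
          else 0
termination_by n => n
decreasing_by all_goals omega

/-- a sum over the gaps of `l ++ true :: r` splits in the two sides -/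
theorem sum_split' (a b : ℕ) (f : ℕ → R) :
    ∑ y ∈ Finset.range (a + (b + 1) + 1), f y =
      ∑ y ∈ Finset.range (a + 1), f y + ∑ y ∈ Finset.range (b + 1), f (a + 1 + y) := by
  rw [show a + (b + 1) + 1 = (a + 1) + (b + 1) by ring, Finset.sum_range_add]

/-- binomial (Leibniz) product formula with weights -/
theorem Tw_append (φ : ℕ → R) (m : ℕ) : ∀ (δ : ℕ) (V1 V2 U1 U2 : List Bool),
    V1.count true = U1.count true → V1.length ≤ δ + U1.length →
    Tw φ m δ (V1 ++ true :: V2) (U1 ++ true :: U2) =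
      ∑ k ∈ Finset.range (m + 1), (m.choose k : R) * (Tw φ k δ V1 U1 *
        Tw φ (m - k) (δ + U1.length - V1.length) V2 U2) := by
  induction m with
  | zero => intro δ V1 V2 U1 U2 _ _; simp [Tw]
  | succ m ih =>
    intro δ V1 V2 U1 U2 hc hl
    obtain ⟨δ', hδ'⟩ : ∃ δ', δ + U1.length - V1.length = δ' := ⟨_, rfl⟩
    -- the left moves and the right moves
    have step : Tw φ (m + 1) δ (V1 ++ true :: V2) (U1 ++ true :: U2) =
        (∑ y ∈ Finset.range (V1.length + 1), ∑ x ∈ Finset.range (U1.length + 1),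
          if cnt y V1 = cnt x U1 ∧ y ≤ x + δ then
            φ (x + δ - y) * Tw φ m δ (insl y (decide (y < x + δ)) V1 ++ true :: V2)
              (insl x (decide (y < x + δ)) U1 ++ true :: U2) else 0) +
        (∑ y ∈ Finset.range (V2.length + 1), ∑ x ∈ Finset.range (U2.length + 1),
          if cnt y V2 = cnt x U2 ∧ y ≤ x + δ' then
            φ (x + δ' - y) * Tw φ m δ (V1 ++ true :: insl y (decide (y < x + δ')) V2)
              (U1 ++ true :: insl x (decide (y < x + δ')) U2) else 0) := by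
      rw [Tw]
      simp only [List.length_append, List.length_cons]
      rw [sum_split']
      congr 1
      · apply Finset.sum_congr rfl
        intro y hy
        rw [Finset.mem_range] at hy
        rw [sum_split']
        have hz : ∑ x ∈ Finset.range (U2.length + 1),
            (if cnt y (V1 ++ true :: V2) = cnt (U1.length + 1 + x) (U1 ++ true :: U2) ∧
              y ≤ U1.length + 1 + x + δ then
              φ (U1.length + 1 + x + δ - y) *
              Tw φ m δ (insl y (decide (y < U1.length + 1 + x + δ)) (V1 ++ true :: V2))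
                (insl (U1.length + 1 + x) (decide (y < U1.length + 1 + x + δ))
                  (U1 ++ true :: U2)) else 0) = 0 := by
          apply Finset.sum_eq_zero
          intro x _
          rw [if_neg]
          rintro ⟨h, -⟩
          rw [cnt_left y _ _ (by omega), cnt_right] at h
          have := cnt_le y V1
          omega
        rw [hz, add_zero]
        apply Finset.sum_congr rfl
        intro x hx
        rw [Finset.mem_range] at hx
        rw [cnt_left y _ _ (by omega), cnt_left x _ _ (by omega), insl_left y _ _ _ (by omega),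
          insl_left x _ _ _ (by omega)]
      · apply Finset.sum_congr rfl
        intro y hy
        rw [Finset.mem_range] at hy
        rw [sum_split']
        have hz : ∑ x ∈ Finset.range (U1.length + 1),
            (if cnt (V1.length + 1 + y) (V1 ++ true :: V2) = cnt x (U1 ++ true :: U2) ∧
              V1.length + 1 + y ≤ x + δ then
              φ (x + δ - (V1.length + 1 + y)) *
              Tw φ m δ (insl (V1.length + 1 + y) (decide (V1.length + 1 + y < x + δ))
                (V1 ++ true :: V2)) (insl x (decide (V1.length + 1 + y < x + δ))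
                  (U1 ++ true :: U2)) else 0) = 0 := by
          apply Finset.sum_eq_zero
          intro x hx
          rw [Finset.mem_range] at hx
          rw [if_neg]
          rintro ⟨h, -⟩
          rw [cnt_left x _ _ (by omega), cnt_right] at h
          have := cnt_le x U1
          omega
        rw [hz, zero_add]
        apply Finset.sum_congr rfl
        intro x hx
        rw [cnt_right, cnt_right, insl_right, insl_right]
        have e1 : (V1.length + 1 + y ≤ U1.length + 1 + x + δ) ↔ y ≤ x + δ' := by omega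
        have e2 : decide (V1.length + 1 + y < U1.length + 1 + x + δ) = decide (y < x + δ') := by
          rw [decide_eq_decide]; omega
        have e3 : (V1.count true + 1 + cnt y V2 = U1.count true + 1 + cnt x U2) ↔
            cnt y V2 = cnt x U2 := by omega
        have e4 : U1.length + 1 + x + δ - (V1.length + 1 + y) = x + δ' - y := by omega
        rw [e2, e4]
        simp only [e1, e3]
    rw [step]
    -- left moves
    have left : (∑ y ∈ Finset.range (V1.length + 1), ∑ x ∈ Finset.range (U1.length + 1),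
          if cnt y V1 = cnt x U1 ∧ y ≤ x + δ then
            φ (x + δ - y) * Tw φ m δ (insl y (decide (y < x + δ)) V1 ++ true :: V2)
              (insl x (decide (y < x + δ)) U1 ++ true :: U2) else 0) =
        ∑ k ∈ Finset.range (m + 1), (m.choose k : R) *
          (Tw φ (k + 1) δ V1 U1 * Tw φ (m - k) δ' V2 U2) := by
      have : ∀ y ∈ Finset.range (V1.length + 1), ∀ x ∈ Finset.range (U1.length + 1),
          (if cnt y V1 = cnt x U1 ∧ y ≤ x + δ then
            φ (x + δ - y) * Tw φ m δ (insl y (decide (y < x + δ)) V1 ++ true :: V2)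
              (insl x (decide (y < x + δ)) U1 ++ true :: U2) else 0) =
          ∑ k ∈ Finset.range (m + 1), (m.choose k : R) *
            ((if cnt y V1 = cnt x U1 ∧ y ≤ x + δ then φ (x + δ - y) *
              Tw φ k δ (insl y (decide (y < x + δ)) V1) (insl x (decide (y < x + δ)) U1) else 0) *
              Tw φ (m - k) δ' V2 U2) := by
        intro y _ x _
        split_ifs with h
        · rw [ih, Finset.mul_sum]
          · simp only [insl_length]
            have : δ + (U1.length + 1) - (V1.length + 1) = δ' := by omega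
            rw [this]
            exact Finset.sum_congr rfl fun k _ => by ring
          · rw [count_insl, count_insl, hc]
          · rw [insl_length, insl_length]; omega
        · simp
      rw [Finset.sum_congr rfl (fun y hy => Finset.sum_congr rfl (this y hy))]
      rw [Finset.sum_congr rfl (fun y _ => Finset.sum_comm)]
      rw [Finset.sum_comm]
      apply Finset.sum_congr rfl
      intro k _
      rw [Tw, Finset.sum_mul, Finset.mul_sum]
      apply Finset.sum_congr rfl
      intro y _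
      rw [Finset.sum_mul, Finset.mul_sum]
    have right : (∑ y ∈ Finset.range (V2.length + 1), ∑ x ∈ Finset.range (U2.length + 1),
          if cnt y V2 = cnt x U2 ∧ y ≤ x + δ' then
            φ (x + δ' - y) * Tw φ m δ (V1 ++ true :: insl y (decide (y < x + δ')) V2)
              (U1 ++ true :: insl x (decide (y < x + δ')) U2) else 0) =
        ∑ k ∈ Finset.range (m + 1), (m.choose k : R) *
          (Tw φ k δ V1 U1 * Tw φ (m - k + 1) δ' V2 U2) := by
      have : ∀ y ∈ Finset.range (V2.length + 1), ∀ x ∈ Finset.range (U2.length + 1),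
          (if cnt y V2 = cnt x U2 ∧ y ≤ x + δ' then
            φ (x + δ' - y) * Tw φ m δ (V1 ++ true :: insl y (decide (y < x + δ')) V2)
              (U1 ++ true :: insl x (decide (y < x + δ')) U2) else 0) =
          ∑ k ∈ Finset.range (m + 1), (m.choose k : R) * (Tw φ k δ V1 U1 *
            (if cnt y V2 = cnt x U2 ∧ y ≤ x + δ' then φ (x + δ' - y) *
              Tw φ (m - k) δ' (insl y (decide (y < x + δ')) V2)
                (insl x (decide (y < x + δ')) U2) else 0)) := by
        intro y _ x _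
        split_ifs with h
        · rw [ih _ _ _ _ _ hc hl, hδ', Finset.mul_sum]
          exact Finset.sum_congr rfl fun k _ => by ring
        · simp
      rw [Finset.sum_congr rfl (fun y hy => Finset.sum_congr rfl (this y hy))]
      rw [Finset.sum_congr rfl (fun y _ => Finset.sum_comm)]
      rw [Finset.sum_comm]
      apply Finset.sum_congr rfl
      intro k _
      rw [Tw, Finset.mul_sum, Finset.mul_sum]
      apply Finset.sum_congr rfl
      intro y _
      rw [Finset.mul_sum, Finset.mul_sum]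
    rw [left, right, hδ']
    -- binomial identity
    have hR : ∑ k ∈ Finset.range (m + 1 + 1), ((m + 1).choose k : R) *
        (Tw φ k δ V1 U1 * Tw φ (m + 1 - k) δ' V2 U2) =
        ∑ k ∈ Finset.range (m + 1), (m.choose k : R) *
          (Tw φ (k + 1) δ V1 U1 * Tw φ (m - k) δ' V2 U2) +
        ∑ k ∈ Finset.range (m + 1), (m.choose k : R) *
          (Tw φ k δ V1 U1 * Tw φ (m - k + 1) δ' V2 U2) := by
      rw [Finset.sum_range_succ']
      simp only [Nat.choose_succ_succ, Nat.cast_add, add_mul, Finset.sum_add_distrib]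
      rw [add_assoc]
      congr 1
      · apply Finset.sum_congr rfl
        intro k _
        rw [show m + 1 - (k + 1) = m - k by omega]
      · rw [Finset.sum_range_succ]
        simp only [Nat.choose_succ_self, Nat.cast_zero, zero_mul, add_zero]
        rw [Finset.sum_range_succ' _ m]
        congr 1
        · apply Finset.sum_congr rfl
          intro k hk
          rw [Finset.mem_range] at hk
          rw [show m + 1 - (k + 1) = m - (k + 1) + 1 by omega]
        · simp
    rw [hR]

theorem Tw_eq_Ww (φ : ℕ → R) (m : ℕ) : ∀ (α g h : ℕ), g ≤ α + h →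
    Tw φ m α (List.replicate g false) (List.replicate h false) = Ww φ m α g h := by
  induction m using Nat.strong_induction_on with
  | _ m ih =>
    intro α g h hgh
    cases m with
    | zero => simp [Tw, Ww]
    | succ n =>
      rw [Tw, Ww]
      simp only [List.length_replicate, cnt_replicate, true_and]
      -- split each term in the common points and the others
      have split : ∀ y ∈ Finset.range (g + 1), ∀ x ∈ Finset.range (h + 1),
          (if y ≤ x + α then
            φ (x + α - y) * Tw φ n α (insl y (decide (y < x + α)) (List.replicate g false))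
              (insl x (decide (y < x + α)) (List.replicate h false)) else 0) =
          (if y = x + α then φ 0 * Ww φ n α (g + 1) (h + 1) else 0) +
          (if y < α + x then
            φ (α + x - y) * ∑ k : Fin (n + 1), (n.choose k.val : R) *
              (Ww φ k.val α y x * Ww φ (n - k.val) (α + x - y) (g - y) (h - x))
          else 0) := by
        intro y hy x hx
        rw [Finset.mem_range] at hy hx
        rcases lt_trichotomy y (x + α) with h1 | h1 | h1
        · rw [if_pos h1.le, if_neg (ne_of_lt h1), if_pos (by omega), zero_add]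
          rw [decide_eq_true h1, insl_replicate y g (by omega), insl_replicate x h (by omega)]
          rw [Tw_append]
          · rw [Finset.sum_range, add_comm x α]
            congr 1
            apply Finset.sum_congr rfl
            intro k _
            have hk := k.2
            simp only [List.length_replicate]
            rw [ih k.val (by omega) α y x (by omega),
              ih (n - k.val) (by omega) _ _ _ (by omega)]
          · simp [List.count_replicate]
          · simp only [List.length_replicate]; omega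
        · rw [if_pos h1.le, if_pos h1, if_neg (by omega), add_zero]
          rw [decide_eq_false (by omega), insl_replicate_false y g (by omega),
            insl_replicate_false x h (by omega), ih n (by omega) _ _ _ (by omega)]
          have h2 : x + α - y = 0 := by omega
          rw [h2]
        · rw [if_neg (by omega), if_neg (by omega), if_neg (by omega), add_zero]
      rw [Finset.sum_congr rfl (fun y hy => Finset.sum_congr rfl (split y hy))]
      simp only [Finset.sum_add_distrib]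
      congr 1
      -- count the common points
      have inner : ∀ y ∈ Finset.range (g + 1), ∑ x ∈ Finset.range (h + 1),
          (if y = x + α then φ 0 * Ww φ n α (g + 1) (h + 1) else 0) =
          if α ≤ y then φ 0 * Ww φ n α (g + 1) (h + 1) else 0 := by
        intro y hy
        rw [Finset.mem_range] at hy
        by_cases hα : α ≤ y
        · rw [if_pos hα]
          rw [Finset.sum_eq_single (y - α)]
          · rw [if_pos (by omega)]
          · intro x _ hx
            rw [if_neg (by omega)]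
          · intro hx
            rw [Finset.mem_range] at hx
            omega
        · rw [if_neg hα]
          apply Finset.sum_eq_zero
          intro x _
          rw [if_neg (by omega)]
      rw [Finset.sum_congr rfl inner]
      rw [← Finset.sum_filter, Finset.sum_const, nsmul_eq_mul]
      have : (Finset.range (g + 1)).filter (fun y => α ≤ y) = Finset.Ico α (g + 1) := by
        ext y
        simp only [Finset.mem_filter, Finset.mem_range, Finset.mem_Ico]
        omega
      rw [this, Nat.card_Ico]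
      ring

end weights

/-! ### modular lattices and hexagons -/

/-- `[u, v]` with the order induced by the weak order is a modular lattice. -/
def IsModularInterval {n : ℕ} (u v : Perm (Fin n)) : Prop :=
  ∃ L : Lattice (Interval u v), (∀ x y : Interval u v, L.le x y ↔ WeakLE x.1 y.1) ∧
    @IsModularLattice (Interval u v) L

/-- `[u, v]` contains a hexagon: there is `w ≥ u` with three adjacent entries `w p < w q < w r` (at
consecutive positions `p, q, r`) such that the permutation with these three entries reversed is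
`≤ v`. -/
def HasHexagon {n : ℕ} (u v : Perm (Fin n)) : Prop :=
  ∃ (w : Perm (Fin n)) (p q r : Fin n), q.val = p.val + 1 ∧ r.val = q.val + 1 ∧
    w p < w q ∧ w q < w r ∧ WeakLE u w ∧ WeakLE (w * swap p r) v

theorem not_modular_of_pattern {n : ℕ} {u v : Perm (Fin n)} {p q r : Fin n}
    (hq : q.val = p.val + 1) (hr : r.val = q.val + 1) {v' : Perm (Fin n)}
    (hv' : WeakLE v' v) (h1 : v' r < v' q) (h2 : v' q < v' p) (huv' : WeakLE u v')
    (h3 : ¬ IsInv u (v' r) (v' q)) (h4 : ¬ IsInv u (v' q) (v' p)) :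
    ¬ IsModularInterval u v := by
  obtain ⟨a, ha⟩ : ∃ a, v' r = a := ⟨_, rfl⟩
  obtain ⟨b, hb⟩ : ∃ b, v' q = b := ⟨_, rfl⟩
  obtain ⟨c, hc⟩ : ∃ c, v' p = c := ⟨_, rfl⟩
  rw [ha, hb] at h1
  rw [hb, hc] at h2
  rw [ha, hb] at h3
  rw [hb, hc] at h4
  have hpq : p ≠ q := by intro h; rw [h] at hq; omega
  have hqr : q ≠ r := by intro h; rw [h] at hr; omega
  have hpr : p ≠ r := by intro h; rw [h] at hq; omega
  have h5 : ¬ IsInv u a c := fun h => by
    rcases isInv_cotrans h1 h2 h with h | h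
    · exact h3 h
    · exact h4 h
  set t1 := v' * swap p q with ht1
  set t2 := t1 * swap q r with ht2
  set t3 := t2 * swap p q with ht3
  set s1 := v' * swap q r with hs1
  set s2 := s1 * swap p q with hs2
  have e1 : t1 p = b ∧ t1 q = c ∧ t1 r = a := by
    refine ⟨?_, ?_, ?_⟩
    · simp [ht1, hb]
    · simp [ht1, hc]
    · rw [ht1, Perm.mul_apply, swap_apply_of_ne_of_ne (Ne.symm hpr) (Ne.symm hqr), ha]
  have e2 : t2 p = b ∧ t2 q = a ∧ t2 r = c := by
    refine ⟨?_, ?_, ?_⟩
    · rw [ht2, Perm.mul_apply, swap_apply_of_ne_of_ne hpq hpr, e1.1]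
    · simp [ht2, e1.2.2]
    · simp [ht2, e1.2.1]
  have e3 : s1 p = c ∧ s1 q = a ∧ s1 r = b := by
    refine ⟨?_, ?_, ?_⟩
    · rw [hs1, Perm.mul_apply, swap_apply_of_ne_of_ne hpq hpr, hc]
    · simp [hs1, ha]
    · simp [hs1, hb]
  have i1 : ∀ x y, IsInv t1 x y ↔ IsInv v' x y ∧ ¬ (x = b ∧ y = c) := by
    intro x y
    have := adj_swap v' p q hq (by rw [hb, hc]; exact h2) x y
    rw [hb, hc] at this
    exact this
  have i2 : ∀ x y, IsInv t2 x y ↔ IsInv t1 x y ∧ ¬ (x = a ∧ y = c) := by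
    intro x y
    have := adj_swap t1 q r hr (by rw [e1.2.1, e1.2.2]; exact h1.trans h2) x y
    rw [e1.2.1, e1.2.2] at this
    exact this
  have i3 : ∀ x y, IsInv t3 x y ↔ IsInv t2 x y ∧ ¬ (x = a ∧ y = b) := by
    intro x y
    have := adj_swap t2 p q hq (by rw [e2.1, e2.2.1]; exact h1) x y
    rw [e2.1, e2.2.1] at this
    exact this
  have i4 : ∀ x y, IsInv s1 x y ↔ IsInv v' x y ∧ ¬ (x = a ∧ y = b) := by
    intro x y
    have := adj_swap v' q r hr (by rw [ha, hb]; exact h1) x y
    rw [ha, hb] at this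
    exact this
  have i5 : ∀ x y, IsInv s2 x y ↔ IsInv s1 x y ∧ ¬ (x = a ∧ y = c) := by
    intro x y
    have := adj_swap s1 p q hq (by rw [e3.1, e3.2.1]; exact h1.trans h2) x y
    rw [e3.1, e3.2.1] at this
    exact this
  -- basic facts on inversions of v'
  have v'a : v'.symm a = r := by rw [← ha]; simp
  have v'b : v'.symm b = q := by rw [← hb]; simp
  have v'c : v'.symm c = p := by rw [← hc]; simp
  have hpq' : p < q := by rw [Fin.lt_def]; omega
  have hqr' : q < r := by rw [Fin.lt_def]; omega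
  have vab : IsInv v' a b := ⟨h1, by rw [v'a, v'b]; exact hqr'⟩
  have vbc : IsInv v' b c := ⟨h2, by rw [v'b, v'c]; exact hpq'⟩
  have vac : IsInv v' a c := isInv_trans vab vbc
  have hu3 : WeakLE u t3 := by
    intro x y hxy
    rw [i3, i2, i1]
    refine ⟨⟨⟨huv' _ _ hxy, ?_⟩, ?_⟩, ?_⟩
    · rintro ⟨rfl, rfl⟩; exact h4 hxy
    · rintro ⟨rfl, rfl⟩; exact h5 hxy
    · rintro ⟨rfl, rfl⟩; exact h3 hxy
  have hu2 : WeakLE u t2 := fun x y hxy => ((i3 x y).1 (hu3 x y hxy)).1
  have hu1 : WeakLE u t1 := fun x y hxy => ((i2 x y).1 (hu2 x y hxy)).1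
  have hus2 : WeakLE u s2 := by
    intro x y hxy
    rw [i5, i4]
    refine ⟨⟨huv' _ _ hxy, ?_⟩, ?_⟩
    · rintro ⟨rfl, rfl⟩; exact h3 hxy
    · rintro ⟨rfl, rfl⟩; exact h5 hxy
  have t1v : WeakLE t1 v := fun x y hxy => hv' _ _ ((i1 x y).1 hxy).1
  have t2v : WeakLE t2 v := fun x y hxy => t1v _ _ ((i2 x y).1 hxy).1
  have s2v : WeakLE s2 v := fun x y hxy => hv' _ _ ((i4 x y).1 ((i5 x y).1 hxy).1).1
  rintro ⟨L, hL, hmod⟩
  let _ := L
  have _ := hmod
  let T1 : Interval u v := ⟨t1, hu1, t1v⟩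
  let T2 : Interval u v := ⟨t2, hu2, t2v⟩
  let Y : Interval u v := ⟨s2, hus2, s2v⟩
  have hL' : ∀ x y : Interval u v, x ≤ y ↔ WeakLE x.1 y.1 := hL
  have nab : ¬ (a = b) := ne_of_lt h1
  have nbc : ¬ (b = c) := ne_of_lt h2
  have nac : ¬ (a = c) := ne_of_lt (h1.trans h2)
  have k1 : T1 ≤ T2 ⊔ Y := by
    rw [hL']
    intro x y hxy
    have hxy' : IsInv t1 x y := hxy
    have m1 : WeakLE t2 (T2 ⊔ Y).1 := (hL' T2 (T2 ⊔ Y)).1 le_sup_left
    have m2 : WeakLE s2 (T2 ⊔ Y).1 := (hL' Y (T2 ⊔ Y)).1 le_sup_right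
    by_cases hc1 : x = a ∧ y = c
    · obtain ⟨rfl, rfl⟩ := hc1
      refine isInv_trans (b := b) (m1 _ _ ?_) (m2 _ _ ?_)
      · rw [i2, i1]
        exact ⟨⟨vab, fun h => nab h.1⟩, fun h => nbc h.2⟩
      · rw [i5, i4]
        exact ⟨⟨vbc, fun h => nab h.1.symm⟩, fun h => nab h.1.symm⟩
    · exact m1 _ _ ((i2 x y).2 ⟨hxy', hc1⟩)
  have k2 : T1 ⊓ Y ≤ T2 := by
    rw [hL']
    intro x y hxy
    have m1 : WeakLE (T1 ⊓ Y).1 t1 := (hL' (T1 ⊓ Y) T1).1 inf_le_left
    have m2 : WeakLE (T1 ⊓ Y).1 s2 := (hL' (T1 ⊓ Y) Y).1 inf_le_right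
    exact (i2 x y).2 ⟨m1 _ _ hxy, ((i5 x y).1 (m2 _ _ hxy)).2⟩
  have k0 : T2 ≤ T1 := by
    rw [hL']
    exact fun x y hxy => ((i2 x y).1 hxy).1
  have k3 : T1 ≤ T2 := by
    calc T1 = (T2 ⊔ Y) ⊓ T1 := (inf_eq_right.2 k1).symm
      _ = T2 ⊔ Y ⊓ T1 := sup_inf_assoc_of_le Y k0
      _ ≤ T2 := sup_le le_rfl (by rw [inf_comm]; exact k2)
  have k4 : WeakLE t1 t2 := (hL' T1 T2).1 k3
  have k5 := k4 a c ((i1 a c).2 ⟨vac, fun h => nab h.1⟩)
  exact ((i2 a c).1 k5).2 ⟨rfl, rfl⟩

theorem exists_pattern {n : ℕ} {u v : Perm (Fin n)} (huv : WeakLE u v) (hng : ¬ Good u v) :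
    ∃ (v' : Perm (Fin n)) (p q r : Fin n), q.val = p.val + 1 ∧ r.val = q.val + 1 ∧ WeakLE v' v ∧
      v' r < v' q ∧ v' q < v' p ∧ WeakLE u v' ∧ ¬ IsInv u (v' r) (v' q) ∧
      ¬ IsInv u (v' q) (v' p) := by
  classical
  rw [good_iff huv, not_not] at hng
  -- minimal v'
  let N : Perm (Fin n) → ℕ := fun w =>
    (Finset.univ.filter (fun x : Fin n × Fin n => IsInv w x.1 x.2)).card
  let Q : Perm (Fin n) → Prop := fun w => WeakLE u w ∧ WeakLE w v ∧
    ∃ a b c : Fin n, IsInv w a b ∧ ¬ IsInv u a b ∧ IsInv w b c ∧ ¬ IsInv u b c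
  have hex : ∃ m, ∃ w, Q w ∧ N w = m := ⟨N v, v, ⟨huv, fun _ _ h => h, hng⟩, rfl⟩
  obtain ⟨v', ⟨hQ1, hQ2, a, b, c, hab, hab', hbc, hbc'⟩, hN⟩ := Nat.find_spec hex
  have hmin : ∀ w, Q w → N v' ≤ N w := by
    intro w hw
    rw [hN]
    exact Nat.find_min' hex ⟨w, hw, rfl⟩
  -- claim
  have claim : ∀ i j : Fin n, j.val = i.val + 1 → u.symm (v' j) < u.symm (v' i) →
      (a = v' j ∧ b = v' i) ∨ (b = v' j ∧ c = v' i) := by
    intro i j hij hlt
    by_contra hcon
    push Not at hcon
    have hij' : i < j := by rw [Fin.lt_def]; omega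
    have hlt' : v' j < v' i := by
      refine inv_of_inv hQ1 hlt ?_
      simpa using hij'
    have hinv := adj_swap v' i j hij hlt'
    have hnu : ¬ IsInv u (v' j) (v' i) := fun h => lt_asymm h.2 hlt
    have hvji : IsInv v' (v' j) (v' i) := ⟨hlt', by simpa using hij'⟩
    have hle : N v' ≤ N (v' * swap i j) := by
      apply hmin
      refine ⟨?_, ?_, a, b, c, ?_, hab', ?_, hbc'⟩
      · intro x y hxy
        rw [hinv]
        refine ⟨hQ1 _ _ hxy, ?_⟩
        rintro ⟨rfl, rfl⟩
        exact hnu hxy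
      · intro x y hxy
        exact hQ2 _ _ ((hinv x y).1 hxy).1
      · rw [hinv]
        refine ⟨hab, ?_⟩
        rintro ⟨h1, h2⟩
        exact hcon.1 h1 h2
      · rw [hinv]
        refine ⟨hbc, ?_⟩
        rintro ⟨h1, h2⟩
        exact hcon.2 h1 h2
    have hlt2 : N (v' * swap i j) < N v' := by
      apply Finset.card_lt_card
      refine ⟨?_, ?_⟩
      · intro x hx
        simp only [Finset.mem_filter, Finset.mem_univ, true_and] at hx ⊢
        exact ((hinv _ _).1 hx).1
      · intro hsub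
        have : (v' j, v' i) ∈ Finset.univ.filter
            (fun x : Fin n × Fin n => IsInv (v' * swap i j) x.1 x.2) :=
          hsub (by simpa using hvji)
        simp only [Finset.mem_filter, Finset.mem_univ, true_and] at this
        exact ((hinv _ _).1 this).2 ⟨rfl, rfl⟩
    omega
  have desc : ∀ p q : Fin n, p < q → u.symm (v' q) < u.symm (v' p) →
      ∃ i j : Fin n, j.val = i.val + 1 ∧ p ≤ i ∧ j ≤ q ∧ u.symm (v' j) < u.symm (v' i) := by
    intro p q hpq hlt
    obtain ⟨i, h1, h2, h3⟩ := exists_adj_descent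
      (fun k => if h : k < n then (u.symm (v' ⟨k, h⟩)).val else 0) p.val q.val hpq (by
        simp only [p.2, q.2, dif_pos]
        exact hlt)
    have hi : i < n := by have := q.2; omega
    have hi1 : i + 1 < n := by have := q.2; omega
    refine ⟨⟨i, hi⟩, ⟨i + 1, hi1⟩, rfl, ?_, ?_, ?_⟩
    · rw [Fin.le_def]; exact h1
    · rw [Fin.le_def]; exact h2
    · simp only [hi, hi1, dif_pos] at h3
      exact h3
  have uab : u.symm a < u.symm b := by
    rcases lt_trichotomy (u.symm a) (u.symm b) with h | h | h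
    · exact h
    · exact absurd (u.symm.injective h) (ne_of_lt hab.1)
    · exact absurd ⟨hab.1, h⟩ hab'
  have ubc : u.symm b < u.symm c := by
    rcases lt_trichotomy (u.symm b) (u.symm c) with h | h | h
    · exact h
    · exact absurd (u.symm.injective h) (ne_of_lt hbc.1)
    · exact absurd ⟨hbc.1, h⟩ hbc'
  obtain ⟨p, hp⟩ : ∃ p, v'.symm c = p := ⟨_, rfl⟩
  obtain ⟨q, hq⟩ : ∃ q, v'.symm b = q := ⟨_, rfl⟩
  obtain ⟨r, hr⟩ : ∃ r, v'.symm a = r := ⟨_, rfl⟩
  have hp' : v' p = c := by rw [← hp]; simp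
  have hq' : v' q = b := by rw [← hq]; simp
  have hr' : v' r = a := by rw [← hr]; simp
  have hpq : p < q := by rw [← hp, ← hq]; exact hbc.2
  have hqr : q < r := by rw [← hq, ← hr]; exact hab.2
  have hq1 : q.val = p.val + 1 := by
    obtain ⟨i, j, h1, h2, h3, h4⟩ := desc p q hpq (by rw [hp', hq']; exact ubc)
    rcases claim i j h1 h4 with ⟨h5, h6⟩ | ⟨h5, h6⟩
    · have : r = j := by
        apply v'.injective
        rw [hr', h5]
      rw [this] at hqr
      exact absurd h3 (not_le.2 hqr)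
    · have e1 : q = j := by
        apply v'.injective
        rw [hq', h5]
      have e2 : p = i := by
        apply v'.injective
        rw [hp', h6]
      rw [e1, e2]; exact h1
  have hr1 : r.val = q.val + 1 := by
    obtain ⟨i, j, h1, h2, h3, h4⟩ := desc q r hqr (by rw [hr', hq']; exact uab)
    rcases claim i j h1 h4 with ⟨h5, h6⟩ | ⟨h5, h6⟩
    · have e1 : r = j := by
        apply v'.injective
        rw [hr', h5]
      have e2 : q = i := by
        apply v'.injective
        rw [hq', h6]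
      rw [e1, e2]; exact h1
    · have : p = i := by
        apply v'.injective
        rw [hp', h6]
      rw [this] at hpq
      exact absurd h2 (not_le.2 hpq)
  refine ⟨v', p, q, r, hq1, hr1, hQ2, ?_, ?_, hQ1, ?_, ?_⟩
  · rw [hr', hq']; exact hab.1
  · rw [hq', hp']; exact hbc.1
  · rw [hr', hq']; exact hab'
  · rw [hq', hp']; exact hbc'


/-- the six elements of the hexagon of a pattern -/
theorem hexdata {n : ℕ} {u v : Perm (Fin n)} {p q r : Fin n}
    (hq : q.val = p.val + 1) (hr : r.val = q.val + 1) {v' : Perm (Fin n)}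
    (hv' : WeakLE v' v) (h1 : v' r < v' q) (h2 : v' q < v' p) (huv' : WeakLE u v')
    (h3 : ¬ IsInv u (v' r) (v' q)) (h4 : ¬ IsInv u (v' q) (v' p)) :
    ∃ (W0 A1 B1 A2 B2 TP : Interval u v) (a b c : Fin n), a < b ∧ b < c ∧ IsInv TP.1 a b ∧
      IsInv TP.1 b c ∧ IsInv TP.1 a c ∧
      (∀ x y, IsInv A2.1 x y ↔ IsInv TP.1 x y ∧ ¬ (x = b ∧ y = c)) ∧
      (∀ x y, IsInv A1.1 x y ↔ IsInv A2.1 x y ∧ ¬ (x = a ∧ y = c)) ∧
      (∀ x y, IsInv W0.1 x y ↔ IsInv A1.1 x y ∧ ¬ (x = a ∧ y = b)) ∧
      (∀ x y, IsInv B2.1 x y ↔ IsInv TP.1 x y ∧ ¬ (x = a ∧ y = b)) ∧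
      (∀ x y, IsInv B1.1 x y ↔ IsInv B2.1 x y ∧ ¬ (x = a ∧ y = c)) := by
  obtain ⟨a, ha⟩ : ∃ a, v' r = a := ⟨_, rfl⟩
  obtain ⟨b, hb⟩ : ∃ b, v' q = b := ⟨_, rfl⟩
  obtain ⟨c, hc⟩ : ∃ c, v' p = c := ⟨_, rfl⟩
  rw [ha, hb] at h1
  rw [hb, hc] at h2
  rw [ha, hb] at h3
  rw [hb, hc] at h4
  have hpq : p ≠ q := by intro h; rw [h] at hq; omega
  have hqr : q ≠ r := by intro h; rw [h] at hr; omega
  have hpr : p ≠ r := by intro h; rw [h] at hq; omega
  have h5 : ¬ IsInv u a c := fun h => by
    rcases isInv_cotrans h1 h2 h with h | h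
    · exact h3 h
    · exact h4 h
  set t1 := v' * swap p q with ht1
  set t2 := t1 * swap q r with ht2
  set t3 := t2 * swap p q with ht3
  set s1 := v' * swap q r with hs1
  set s2 := s1 * swap p q with hs2
  have e1 : t1 p = b ∧ t1 q = c ∧ t1 r = a := by
    refine ⟨?_, ?_, ?_⟩
    · simp [ht1, hb]
    · simp [ht1, hc]
    · rw [ht1, Perm.mul_apply, swap_apply_of_ne_of_ne (Ne.symm hpr) (Ne.symm hqr), ha]
  have e2 : t2 p = b ∧ t2 q = a ∧ t2 r = c := by
    refine ⟨?_, ?_, ?_⟩
    · rw [ht2, Perm.mul_apply, swap_apply_of_ne_of_ne hpq hpr, e1.1]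
    · simp [ht2, e1.2.2]
    · simp [ht2, e1.2.1]
  have e3 : s1 p = c ∧ s1 q = a ∧ s1 r = b := by
    refine ⟨?_, ?_, ?_⟩
    · rw [hs1, Perm.mul_apply, swap_apply_of_ne_of_ne hpq hpr, hc]
    · simp [hs1, ha]
    · simp [hs1, hb]
  have i1 : ∀ x y, IsInv t1 x y ↔ IsInv v' x y ∧ ¬ (x = b ∧ y = c) := by
    intro x y
    have := adj_swap v' p q hq (by rw [hb, hc]; exact h2) x y
    rw [hb, hc] at this
    exact this
  have i2 : ∀ x y, IsInv t2 x y ↔ IsInv t1 x y ∧ ¬ (x = a ∧ y = c) := by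
    intro x y
    have := adj_swap t1 q r hr (by rw [e1.2.1, e1.2.2]; exact h1.trans h2) x y
    rw [e1.2.1, e1.2.2] at this
    exact this
  have i3 : ∀ x y, IsInv t3 x y ↔ IsInv t2 x y ∧ ¬ (x = a ∧ y = b) := by
    intro x y
    have := adj_swap t2 p q hq (by rw [e2.1, e2.2.1]; exact h1) x y
    rw [e2.1, e2.2.1] at this
    exact this
  have i4 : ∀ x y, IsInv s1 x y ↔ IsInv v' x y ∧ ¬ (x = a ∧ y = b) := by
    intro x y
    have := adj_swap v' q r hr (by rw [ha, hb]; exact h1) x y
    rw [ha, hb] at this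
    exact this
  have i5 : ∀ x y, IsInv s2 x y ↔ IsInv s1 x y ∧ ¬ (x = a ∧ y = c) := by
    intro x y
    have := adj_swap s1 p q hq (by rw [e3.1, e3.2.1]; exact h1.trans h2) x y
    rw [e3.1, e3.2.1] at this
    exact this
  -- basic facts on inversions of v'
  have v'a : v'.symm a = r := by rw [← ha]; simp
  have v'b : v'.symm b = q := by rw [← hb]; simp
  have v'c : v'.symm c = p := by rw [← hc]; simp
  have hpq' : p < q := by rw [Fin.lt_def]; omega
  have hqr' : q < r := by rw [Fin.lt_def]; omega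
  have vab : IsInv v' a b := ⟨h1, by rw [v'a, v'b]; exact hqr'⟩
  have vbc : IsInv v' b c := ⟨h2, by rw [v'b, v'c]; exact hpq'⟩
  have vac : IsInv v' a c := isInv_trans vab vbc
  have hu3 : WeakLE u t3 := by
    intro x y hxy
    rw [i3, i2, i1]
    refine ⟨⟨⟨huv' _ _ hxy, ?_⟩, ?_⟩, ?_⟩
    · rintro ⟨rfl, rfl⟩; exact h4 hxy
    · rintro ⟨rfl, rfl⟩; exact h5 hxy
    · rintro ⟨rfl, rfl⟩; exact h3 hxy
  have hu2 : WeakLE u t2 := fun x y hxy => ((i3 x y).1 (hu3 x y hxy)).1
  have hu1 : WeakLE u t1 := fun x y hxy => ((i2 x y).1 (hu2 x y hxy)).1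
  have hus2 : WeakLE u s2 := by
    intro x y hxy
    rw [i5, i4]
    refine ⟨⟨huv' _ _ hxy, ?_⟩, ?_⟩
    · rintro ⟨rfl, rfl⟩; exact h3 hxy
    · rintro ⟨rfl, rfl⟩; exact h5 hxy
  have t1v : WeakLE t1 v := fun x y hxy => hv' _ _ ((i1 x y).1 hxy).1
  have t2v : WeakLE t2 v := fun x y hxy => t1v _ _ ((i2 x y).1 hxy).1
  have s2v : WeakLE s2 v := fun x y hxy => hv' _ _ ((i4 x y).1 ((i5 x y).1 hxy).1).1
  have t3v : WeakLE t3 v := fun x y hxy => t2v _ _ ((i3 x y).1 hxy).1
  have hus1 : WeakLE u s1 := fun x y hxy => ((i5 x y).1 (hus2 x y hxy)).1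
  have s1v : WeakLE s1 v := fun x y hxy => hv' _ _ ((i4 x y).1 hxy).1
  exact ⟨⟨t3, hu3, t3v⟩, ⟨t2, hu2, t2v⟩, ⟨s2, hus2, s2v⟩, ⟨t1, hu1, t1v⟩, ⟨s1, hus1, s1v⟩,
    ⟨v', huv', hv'⟩, a, b, c, h1, h2, vab, vbc, vac, i1, i2, i3, i4, i5⟩

/-- `[u, v]` with the order induced by the weak order is a lattice in which two elements covering
their meet are covered by their join (Birkhoff's condition, upper semimodular). -/
def IsUpperSemimodularInterval {n : ℕ} (u v : Perm (Fin n)) : Prop :=
  ∃ L : Lattice (Interval u v), (∀ x y : Interval u v, L.le x y ↔ WeakLE x.1 y.1) ∧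
    @IsWeakUpperModularLattice (Interval u v) L

/-- `[u, v]` with the order induced by the weak order is a lattice in which two elements covered by
their join cover their meet (the dual of Birkhoff's condition, lower semimodular). -/
def IsLowerSemimodularInterval {n : ℕ} (u v : Perm (Fin n)) : Prop :=
  ∃ L : Lattice (Interval u v), (∀ x y : Interval u v, L.le x y ↔ WeakLE x.1 y.1) ∧
    @IsWeakLowerModularLattice (Interval u v) L

theorem cov {n : ℕ} {u v : Perm (Fin n)} (L : Lattice (Interval u v))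
    (hL : ∀ x y : Interval u v, L.le x y ↔ WeakLE x.1 y.1) {x y : Interval u v} {a b : Fin n}
    (h : ∀ i j, IsInv x.1 i j ↔ IsInv y.1 i j ∧ ¬ (i = a ∧ j = b)) (hab : IsInv y.1 a b) :
    @CovBy _ L.toPartialOrder.toLT x y := by
  let _ := L
  have hL' : ∀ x y : Interval u v, x ≤ y ↔ WeakLE x.1 y.1 := hL
  have hxy : x ≤ y := (hL' _ _).2 fun i j hij => ((h i j).1 hij).1
  have hnot : ¬ y ≤ x := fun h' => ((h a b).1 ((hL' _ _).1 h' a b hab)).2 ⟨rfl, rfl⟩
  refine ⟨lt_of_le_not_ge hxy hnot, fun z hxz hzy => ?_⟩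
  by_cases hz : IsInv z.1 a b
  · refine absurd ((hL' y z).2 fun i j hij => ?_) hzy.not_ge
    by_cases hc : i = a ∧ j = b
    · obtain ⟨rfl, rfl⟩ := hc
      exact hz
    · exact (hL' x z).1 hxz.le i j ((h i j).2 ⟨hij, hc⟩)
  · refine absurd ((hL' z x).2 fun i j hij => ?_) hxz.not_ge
    refine (h i j).2 ⟨(hL' z y).1 hzy.le i j hij, ?_⟩
    rintro ⟨rfl, rfl⟩
    exact hz hij

theorem not_upper_of_pattern {n : ℕ} {u v : Perm (Fin n)} {p q r : Fin n}
    (hq : q.val = p.val + 1) (hr : r.val = q.val + 1) {v' : Perm (Fin n)}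
    (hv' : WeakLE v' v) (h1 : v' r < v' q) (h2 : v' q < v' p) (huv' : WeakLE u v')
    (h3 : ¬ IsInv u (v' r) (v' q)) (h4 : ¬ IsInv u (v' q) (v' p)) :
    ¬ IsUpperSemimodularInterval u v := by
  obtain ⟨W0, A1, B1, A2, B2, TP, a, b, c, hab, hbc, vab, vbc, vac, i1, i2, i3, i4, i5⟩ :=
    hexdata hq hr hv' h1 h2 huv' h3 h4
  rintro ⟨L, hL, hmod⟩
  let _ := L
  have _ := hmod
  have hL' : ∀ x y : Interval u v, x ≤ y ↔ WeakLE x.1 y.1 := hL
  have nab : ¬ (a = b) := ne_of_lt hab
  have nbc : ¬ (b = c) := ne_of_lt hbc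
  -- the inversions of the atoms
  have a1ab : IsInv A1.1 a b := (i2 a b).2 ⟨(i1 a b).2 ⟨vab, fun h => nab h.1⟩, fun h => nbc h.2⟩
  have b1bc : IsInv B1.1 b c := (i5 b c).2 ⟨(i4 b c).2 ⟨vbc, fun h => nab h.1.symm⟩,
    fun h => nab h.1.symm⟩
  have j3 : ∀ x y, IsInv W0.1 x y ↔ IsInv B1.1 x y ∧ ¬ (x = b ∧ y = c) := by
    intro x y
    rw [i3, i2, i1, i5, i4]
    tauto
  have c1 : W0 ⋖ A1 := cov L hL i3 a1ab
  have c2 : W0 ⋖ B1 := cov L hL j3 b1bc
  have hinf : A1 ⊓ B1 = W0 := by
    refine le_antisymm ?_ (le_inf c1.le c2.le)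
    rw [hL']
    intro x y hxy
    have m1 := (hL' (A1 ⊓ B1) A1).1 inf_le_left x y hxy
    have m2 := (hL' (A1 ⊓ B1) B1).1 inf_le_right x y hxy
    exact (i3 x y).2 ⟨m1, ((i4 x y).1 ((i5 x y).1 m2).1).2⟩
  have c3 : A1 ⋖ A1 ⊔ B1 := covBy_sup_of_inf_covBy_of_inf_covBy_left (by rw [hinf]; exact c1)
    (by rw [hinf]; exact c2)
  have k1 : A2 ≤ A1 ⊔ B1 := by
    rw [hL']
    intro x y hxy
    have m1 : WeakLE A1.1 (A1 ⊔ B1).1 := (hL' A1 (A1 ⊔ B1)).1 le_sup_left
    have m2 : WeakLE B1.1 (A1 ⊔ B1).1 := (hL' B1 (A1 ⊔ B1)).1 le_sup_right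
    by_cases hc1 : x = a ∧ y = c
    · obtain ⟨rfl, rfl⟩ := hc1
      exact isInv_trans (b := b) (m1 _ _ a1ab) (m2 _ _ b1bc)
    · exact m1 _ _ ((i2 x y).2 ⟨hxy, hc1⟩)
  have a2ac : IsInv A2.1 a c := (i1 a c).2 ⟨vac, fun h => nab h.1⟩
  have c4 : A1 ⋖ A2 := cov L hL i2 a2ac
  refine c3.2 c4.lt (lt_of_le_not_ge k1 fun h => ?_)
  have m2 : WeakLE B1.1 A2.1 := (hL' B1 A2).1 (le_sup_right.trans h)
  exact ((i1 b c).1 (m2 b c b1bc)).2 ⟨rfl, rfl⟩

theorem not_lower_of_pattern {n : ℕ} {u v : Perm (Fin n)} {p q r : Fin n}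
    (hq : q.val = p.val + 1) (hr : r.val = q.val + 1) {v' : Perm (Fin n)}
    (hv' : WeakLE v' v) (h1 : v' r < v' q) (h2 : v' q < v' p) (huv' : WeakLE u v')
    (h3 : ¬ IsInv u (v' r) (v' q)) (h4 : ¬ IsInv u (v' q) (v' p)) :
    ¬ IsLowerSemimodularInterval u v := by
  obtain ⟨W0, A1, B1, A2, B2, TP, a, b, c, hab, hbc, vab, vbc, vac, i1, i2, i3, i4, i5⟩ :=
    hexdata hq hr hv' h1 h2 huv' h3 h4
  rintro ⟨L, hL, hmod⟩
  let _ := L
  have _ := hmod
  have hL' : ∀ x y : Interval u v, x ≤ y ↔ WeakLE x.1 y.1 := hL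
  have nab : ¬ (a = b) := ne_of_lt hab
  have nbc : ¬ (b = c) := ne_of_lt hbc
  have c1 : A2 ⋖ TP := cov L hL i1 vbc
  have c2 : B2 ⋖ TP := cov L hL i4 vab
  have hsup : A2 ⊔ B2 = TP := by
    refine le_antisymm (sup_le c1.le c2.le) ?_
    rw [hL']
    intro x y hxy
    have m1 : WeakLE A2.1 (A2 ⊔ B2).1 := (hL' A2 (A2 ⊔ B2)).1 le_sup_left
    have m2 : WeakLE B2.1 (A2 ⊔ B2).1 := (hL' B2 (A2 ⊔ B2)).1 le_sup_right
    by_cases hc1 : x = b ∧ y = c
    · obtain ⟨rfl, rfl⟩ := hc1
      exact m2 _ _ ((i4 _ _).2 ⟨hxy, fun h => nab h.1.symm⟩)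
    · exact m1 _ _ ((i1 x y).2 ⟨hxy, hc1⟩)
  have c3 : A2 ⊓ B2 ⋖ A2 := inf_covBy_of_covBy_sup_of_covBy_sup_left (by rw [hsup]; exact c1)
    (by rw [hsup]; exact c2)
  have k2 : A2 ⊓ B2 ≤ A1 := by
    rw [hL']
    intro x y hxy
    have m1 : WeakLE (A2 ⊓ B2).1 A2.1 := (hL' (A2 ⊓ B2) A2).1 inf_le_left
    have m2 : WeakLE (A2 ⊓ B2).1 B2.1 := (hL' (A2 ⊓ B2) B2).1 inf_le_right
    refine (i2 x y).2 ⟨m1 _ _ hxy, ?_⟩
    rintro ⟨rfl, rfl⟩
    rcases isInv_cotrans hab hbc hxy with h | h
    · exact ((i4 _ _).1 (m2 _ _ h)).2 ⟨rfl, rfl⟩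
    · exact ((i1 _ _).1 (m1 _ _ h)).2 ⟨rfl, rfl⟩
  have a1ab : IsInv A1.1 a b := (i2 a b).2 ⟨(i1 a b).2 ⟨vab, fun h => nab h.1⟩, fun h => nbc h.2⟩
  have a2ac : IsInv A2.1 a c := (i1 a c).2 ⟨vac, fun h => nab h.1⟩
  have c4 : A1 ⋖ A2 := cov L hL i2 a2ac
  refine c3.2 (lt_of_le_not_ge k2 fun h => ?_) c4.lt
  have m2 : WeakLE A1.1 B2.1 := (hL' A1 B2).1 (h.trans inf_le_right)
  exact ((i4 a b).1 (m2 a b a1ab)).2 ⟨rfl, rfl⟩

theorem weakLE_trans {n : ℕ} {u v w : Perm (Fin n)} (h1 : WeakLE u v) (h2 : WeakLE v w) :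
    WeakLE u w := fun a b h => h2 a b (h1 a b h)

theorem swap_three {n : ℕ} {p q r : Fin n} (hpq : p ≠ q) (hqr : q ≠ r) (hpr : p ≠ r) :
    swap p q * swap q r * swap p q = swap p r := by
  have h := swap_mul_swap_mul_swap (x := r) (y := q) (z := p) hqr.symm hpr.symm
  rw [swap_comm q p, swap_comm r q] at h
  exact h

/-- reversing three adjacent decreasing entries -/
theorem rev_three {n : ℕ} {p q r : Fin n} (hq : q.val = p.val + 1) (hr : r.val = q.val + 1)
    {v' : Perm (Fin n)} (h1 : v' r < v' q) (h2 : v' q < v' p) (x y : Fin n) :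
    IsInv (v' * swap p r) x y ↔ ((IsInv v' x y ∧ ¬ (x = v' q ∧ y = v' p)) ∧
      ¬ (x = v' r ∧ y = v' p)) ∧ ¬ (x = v' r ∧ y = v' q) := by
  have hpq : p ≠ q := by intro h; rw [h] at hq; omega
  have hqr : q ≠ r := by intro h; rw [h] at hr; omega
  have hpr : p ≠ r := by intro h; rw [h] at hq; omega
  obtain ⟨a, ha⟩ : ∃ a, v' r = a := ⟨_, rfl⟩
  obtain ⟨b, hb⟩ : ∃ b, v' q = b := ⟨_, rfl⟩
  obtain ⟨c, hc⟩ : ∃ c, v' p = c := ⟨_, rfl⟩
  rw [ha, hb] at h1
  rw [hb, hc] at h2
  have e0 : v' * swap p r = v' * swap p q * swap q r * swap p q := by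
    rw [← swap_three hpq hqr hpr]
    simp only [mul_assoc]
  set t1 := v' * swap p q with ht1
  set t2 := t1 * swap q r with ht2
  have e1 : t1 p = b ∧ t1 q = c ∧ t1 r = a := by
    refine ⟨?_, ?_, ?_⟩
    · simp [ht1, hb]
    · simp [ht1, hc]
    · rw [ht1, Perm.mul_apply, swap_apply_of_ne_of_ne (Ne.symm hpr) (Ne.symm hqr), ha]
  have e2 : t2 p = b ∧ t2 q = a ∧ t2 r = c := by
    refine ⟨?_, ?_, ?_⟩
    · rw [ht2, Perm.mul_apply, swap_apply_of_ne_of_ne hpq hpr, e1.1]
    · simp [ht2, e1.2.2]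
    · simp [ht2, e1.2.1]
  have i1 : ∀ x y, IsInv t1 x y ↔ IsInv v' x y ∧ ¬ (x = b ∧ y = c) := by
    intro x y
    have := adj_swap v' p q hq (by rw [hb, hc]; exact h2) x y
    rw [hb, hc] at this
    exact this
  have i2 : ∀ x y, IsInv t2 x y ↔ IsInv t1 x y ∧ ¬ (x = a ∧ y = c) := by
    intro x y
    have := adj_swap t1 q r hr (by rw [e1.2.1, e1.2.2]; exact h1.trans h2) x y
    rw [e1.2.1, e1.2.2] at this
    exact this
  have i3 : ∀ x y, IsInv (t2 * swap p q) x y ↔ IsInv t2 x y ∧ ¬ (x = a ∧ y = b) := by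
    intro x y
    have := adj_swap t2 p q hq (by rw [e2.1, e2.2.1]; exact h1) x y
    rw [e2.1, e2.2.1] at this
    exact this
  rw [ha, hb, hc, e0, i3, i2, i1]

theorem hexagon_of_pattern {n : ℕ} {u v : Perm (Fin n)} {p q r : Fin n}
    (hq : q.val = p.val + 1) (hr : r.val = q.val + 1) {v' : Perm (Fin n)}
    (hv' : WeakLE v' v) (h1 : v' r < v' q) (h2 : v' q < v' p) (huv' : WeakLE u v')
    (h3 : ¬ IsInv u (v' r) (v' q)) (h4 : ¬ IsInv u (v' q) (v' p)) : HasHexagon u v := by
  have hpq : p ≠ q := by intro h; rw [h] at hq; omega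
  have hqr : q ≠ r := by intro h; rw [h] at hr; omega
  have h5 : ¬ IsInv u (v' r) (v' p) := fun h => by
    rcases isInv_cotrans h1 h2 h with h | h
    · exact h3 h
    · exact h4 h
  refine ⟨v' * swap p r, p, q, r, hq, hr, ?_, ?_, ?_, ?_⟩
  · rw [Perm.mul_apply, Perm.mul_apply, swap_apply_left, swap_apply_of_ne_of_ne hpq.symm hqr]
    exact h1
  · rw [Perm.mul_apply, Perm.mul_apply, swap_apply_right, swap_apply_of_ne_of_ne hpq.symm hqr]
    exact h2
  · intro x y hxy
    rw [rev_three hq hr h1 h2]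
    refine ⟨⟨⟨huv' _ _ hxy, ?_⟩, ?_⟩, ?_⟩
    · rintro ⟨rfl, rfl⟩; exact h4 hxy
    · rintro ⟨rfl, rfl⟩; exact h5 hxy
    · rintro ⟨rfl, rfl⟩; exact h3 hxy
  · rw [mul_assoc, swap_mul_self, mul_one]
    exact hv'

theorem pattern_of_hexagon {n : ℕ} {u v : Perm (Fin n)} (h : HasHexagon u v) :
    ∃ (v' : Perm (Fin n)) (p q r : Fin n), q.val = p.val + 1 ∧ r.val = q.val + 1 ∧ WeakLE v' v ∧
      v' r < v' q ∧ v' q < v' p ∧ WeakLE u v' ∧ ¬ IsInv u (v' r) (v' q) ∧
      ¬ IsInv u (v' q) (v' p) := by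
  obtain ⟨w, p, q, r, hq, hr, h1, h2, h3, h4⟩ := h
  have hpq : p ≠ q := by intro h; rw [h] at hq; omega
  have hqr : q ≠ r := by intro h; rw [h] at hr; omega
  have hpq' : p < q := by rw [Fin.lt_def]; omega
  have hqr' : q < r := by rw [Fin.lt_def]; omega
  have ep : (w * swap p r) p = w r := by rw [Perm.mul_apply, swap_apply_left]
  have er : (w * swap p r) r = w p := by rw [Perm.mul_apply, swap_apply_right]
  have eq : (w * swap p r) q = w q := by
    rw [Perm.mul_apply, swap_apply_of_ne_of_ne hpq.symm hqr]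
  have hrev := rev_three (v' := w * swap p r) hq hr (by rw [er, eq]; exact h1) (by rw [ep, eq]; exact h2)
  have hw : WeakLE w (w * swap p r) := by
    intro x y hxy
    have h5 := hrev x y
    rw [mul_assoc, swap_mul_self, mul_one] at h5
    exact (h5.1 hxy).1.1.1
  refine ⟨w * swap p r, p, q, r, hq, hr, h4, ?_, ?_, weakLE_trans h3 hw, ?_, ?_⟩
  · rw [er, eq]; exact h1
  · rw [ep, eq]; exact h2
  · rw [er, eq]
    intro h5
    have h6 := (h3 _ _ h5).2
    rw [w.symm_apply_apply, w.symm_apply_apply] at h6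
    exact lt_asymm hpq' h6
  · rw [ep, eq]
    intro h5
    have h6 := (h3 _ _ h5).2
    rw [w.symm_apply_apply, w.symm_apply_apply] at h6
    exact lt_asymm hqr' h6

theorem modular_of_dist {n : ℕ} {u v : Perm (Fin n)} (h : IsDistributiveInterval u v) :
    IsModularInterval u v ∧ IsUpperSemimodularInterval u v ∧ IsLowerSemimodularInterval u v := by
  obtain ⟨L, hL⟩ := h
  refine ⟨⟨L.toLattice, hL, @DistribLattice.instIsModularLattice _ L⟩, ⟨L.toLattice, hL, ?_⟩,
    ⟨L.toLattice, hL, ?_⟩⟩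
  · let _ := L
    infer_instance
  · let _ := L
    infer_instance

/-- the characterisation -/
theorem char {n : ℕ} {u v : Perm (Fin n)} (huv : WeakLE u v) :
    (IsDistributiveInterval u v ↔ Good u v) ∧ (IsModularInterval u v ↔ Good u v) ∧
      (IsUpperSemimodularInterval u v ↔ Good u v) ∧ (IsLowerSemimodularInterval u v ↔ Good u v) ∧
      (¬ HasHexagon u v ↔ Good u v) := by
  have h3 : Good u v → IsDistributiveInterval u v := dist_of_good huv
  refine ⟨dist_iff huv, ⟨fun h => ?_, fun h => (modular_of_dist (h3 h)).1⟩,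
    ⟨fun h => ?_, fun h => (modular_of_dist (h3 h)).2.1⟩,
    ⟨fun h => ?_, fun h => (modular_of_dist (h3 h)).2.2⟩, ⟨fun h => ?_, fun h h' => ?_⟩⟩
  · by_contra hc
    obtain ⟨v', p, q, r, hq, hr, a1, a2, a3, a4, a5, a6⟩ := exists_pattern huv hc
    exact not_modular_of_pattern hq hr a1 a2 a3 a4 a5 a6 h
  · by_contra hc
    obtain ⟨v', p, q, r, hq, hr, a1, a2, a3, a4, a5, a6⟩ := exists_pattern huv hc
    exact not_upper_of_pattern hq hr a1 a2 a3 a4 a5 a6 h
  · by_contra hc
    obtain ⟨v', p, q, r, hq, hr, a1, a2, a3, a4, a5, a6⟩ := exists_pattern huv hc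
    exact not_lower_of_pattern hq hr a1 a2 a3 a4 a5 a6 h
  · by_contra hc
    obtain ⟨v', p, q, r, hq, hr, a1, a2, a3, a4, a5, a6⟩ := exists_pattern huv hc
    exact h (hexagon_of_pattern hq hr a1 a2 a3 a4 a5 a6)
  · obtain ⟨v', p, q, r, hq, hr, a1, a2, a3, a4, a5, a6⟩ := pattern_of_hexagon h'
    exact not_modular_of_pattern hq hr a1 a2 a3 a4 a5 a6 (modular_of_dist (h3 h)).1

/-! ### the joint distribution of the row lengths -/

section rows

open Classical in
/-- The number of `a` such that `(a, b)` is an inversion of `v`, but not of `u`. For `u ≤ v` the sum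
over all `b` is `ℓ(v) - ℓ(u)`, the rank of `[u, v]`. -/
noncomputable def row {n : ℕ} (u v : Perm (Fin n)) (b : Fin n) : ℕ :=
  (Finset.univ.filter fun a : Fin n => IsInv v a b ∧ ¬ IsInv u a b).card

open Classical in
/-- the number of inversions -/
noncomputable def len {n : ℕ} (w : Perm (Fin n)) : ℕ :=
  (Finset.univ.filter fun x : Fin n × Fin n => IsInv w x.1 x.2).card

theorem sum_row {n : ℕ} {u v : Perm (Fin n)} (huv : WeakLE u v) :
    len u + ∑ b, row u v b = len v := by
  classical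
  have h1 : ∀ w : Perm (Fin n), len w = ∑ b, ∑ a, if IsInv w a b then 1 else 0 := by
    intro w
    unfold len
    rw [Finset.card_filter, Fintype.sum_prod_type, Finset.sum_comm]
  rw [h1, h1, ← Finset.sum_add_distrib]
  refine Finset.sum_congr rfl fun b _ => ?_
  unfold row
  rw [Finset.card_filter, ← Finset.sum_add_distrib]
  refine Finset.sum_congr rfl fun a _ => ?_
  by_cases hu : IsInv u a b
  · have hv := huv a b hu
    simp [hu, hv]
  · simp [hu]

theorem inv_ins_castSucc {n : ℕ} (x : Fin (n + 1)) (u : Perm (Fin n)) (a b : Fin n) :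
    IsInv (ins x u) a.castSucc b.castSucc ↔ IsInv u a b := by
  unfold IsInv
  rw [ins_symm_castSucc, ins_symm_castSucc, (Fin.strictMono_succAbove x).lt_iff_lt,
    Fin.castSucc_lt_castSucc_iff]

theorem inv_ins_last {n : ℕ} (x : Fin (n + 1)) (u : Perm (Fin n)) (a : Fin n) :
    IsInv (ins x u) a.castSucc (Fin.last n) ↔ x.val ≤ (u.symm a).val := by
  unfold IsInv
  rw [ins_symm_castSucc, ins_symm_last, lt_succAbove_iff]
  exact ⟨fun h => h.2, fun h => ⟨Fin.castSucc_lt_last a, h⟩⟩

theorem not_inv_last {n : ℕ} (w : Perm (Fin (n + 1))) (b : Fin (n + 1)) : ¬ IsInv w (Fin.last n) b :=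
  fun h => absurd h.1 (not_lt.2 (Fin.le_last b))

theorem row_castSucc {n : ℕ} (x y : Fin (n + 1)) (u v : Perm (Fin n)) (b : Fin n) :
    row (ins x u) (ins y v) b.castSucc = row u v b := by
  classical
  unfold row
  rw [Finset.card_filter, Finset.card_filter, Fin.sum_univ_castSucc]
  rw [if_neg (fun h => not_inv_last _ _ h.1), add_zero]
  refine Finset.sum_congr rfl fun a _ => ?_
  rw [inv_ins_castSucc, inv_ins_castSucc]

theorem row_last {n : ℕ} (x y : Fin (n + 1)) (u v : Perm (Fin n))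
    (hle : WeakLE (ins x u) (ins y v)) : row (ins x u) (ins y v) (Fin.last n) = x.val - y.val := by
  classical
  have key : ∀ a : Fin n, (v.symm a).val < y.val → (u.symm a).val < x.val := by
    intro a ha
    by_contra hcon
    have h1 := hle _ _ ((inv_ins_last x u a).2 (not_lt.1 hcon))
    rw [inv_ins_last] at h1
    omega
  have hsub : (Finset.univ.filter (fun a : Fin n => (v.symm a).val < y.val)) ⊆
      (Finset.univ.filter (fun a : Fin n => (u.symm a).val < x.val)) := by
    intro a ha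
    simp only [Finset.mem_filter, Finset.mem_univ, true_and] at ha ⊢
    exact key a ha
  unfold row
  rw [Finset.card_filter, Fin.sum_univ_castSucc, if_neg (fun h => not_inv_last _ _ h.1), add_zero,
    ← Finset.card_filter]
  have h2 : (Finset.univ.filter fun a : Fin n => IsInv (ins y v) a.castSucc (Fin.last n) ∧
      ¬ IsInv (ins x u) a.castSucc (Fin.last n)) =
      (Finset.univ.filter (fun a : Fin n => (u.symm a).val < x.val)) \
        (Finset.univ.filter (fun a : Fin n => (v.symm a).val < y.val)) := by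
    ext a
    simp only [Finset.mem_filter, Finset.mem_univ, true_and, Finset.mem_sdiff, inv_ins_last]
    constructor
    · rintro ⟨h3, h4⟩
      exact ⟨by omega, by omega⟩
    · rintro ⟨h3, h4⟩
      exact ⟨by omega, by omega⟩
  rw [h2, Finset.card_sdiff_of_subset hsub, card_pos_lt u _ (by omega), card_pos_lt v _ (by omega)]

variable {R : Type*} [CommSemiring R]

open Classical in
noncomputable def Aw (φ : ℕ → R) (n m : ℕ) : R :=
  ∑ u : Perm (Fin n), ∑ v : Perm (Fin n), if Good' u v then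
    (∏ b, φ (row u v b)) * Tw φ m 0 (cV u v) (cU u v) else 0

theorem Aw_step (φ : ℕ → R) (n m : ℕ) : Aw φ (n + 1) m = Aw φ n (m + 1) := by
  classical
  unfold Aw
  rw [← Equiv.sum_comp insEquiv, Fintype.sum_prod_type, Finset.sum_comm]
  apply Finset.sum_congr rfl
  intro u _
  have e1 : ∀ x : Fin (n + 1), (∑ v' : Perm (Fin (n + 1)),
      if Good' (insEquiv (x, u)) v' then (∏ b, φ (row (insEquiv (x, u)) v' b)) *
        Tw φ m 0 (cV (insEquiv (x, u)) v') (cU (insEquiv (x, u)) v') else 0) =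
      ∑ v : Perm (Fin n), ∑ y : Fin (n + 1), if Good' (ins x u) (ins y v) then
        (∏ b, φ (row (ins x u) (ins y v) b)) *
        Tw φ m 0 (cV (ins x u) (ins y v)) (cU (ins x u) (ins y v)) else 0 := by
    intro x
    rw [← Equiv.sum_comp insEquiv, Fintype.sum_prod_type, Finset.sum_comm]
    rfl
  rw [Finset.sum_congr rfl (fun x _ => e1 x), Finset.sum_comm]
  apply Finset.sum_congr rfl
  intro v _
  by_cases hg : Good' u v
  · rw [if_pos hg, Tw, Finset.sum_comm]
    have lV : (cV u v).length = n := by simp [cV]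
    have lU : (cU u v).length = n := by simp [cU]
    rw [lV, lU, Finset.sum_range, Finset.mul_sum]
    apply Finset.sum_congr rfl
    intro y _
    rw [Finset.sum_range, Finset.mul_sum]
    apply Finset.sum_congr rfl
    intro x _
    rw [cnt_cV, cnt_cU, add_zero]
    by_cases h : y.val ≤ x.val ∧ (BV u v y.val).card = (BU u v x.val).card
    · have hg' := (good_ins_iff x y).2 ⟨hg, h⟩
      rw [if_pos hg', if_pos ⟨h.2, h.1⟩, cV_ins hg.2 h.1 h.2,
        cU_ins hg.2 h.1 h.2, Fin.prod_univ_castSucc, row_last x y u v hg'.1]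
      simp only [row_castSucc]
      ring
    · rw [if_neg (fun h' => h ((good_ins_iff x y).1 h').2), if_neg (fun h' => h ⟨h'.2, h'.1⟩),
        mul_zero]
  · rw [if_neg hg]
    apply Finset.sum_eq_zero
    intro x _
    apply Finset.sum_eq_zero
    intro y _
    rw [if_neg (fun h' => hg ((good_ins_iff _ _).1 h').1)]

theorem Aw_zero (φ : ℕ → R) (n : ℕ) : Aw φ n 0 = Aw φ 0 n := by
  have : ∀ m k, Aw φ (m + k) 0 = Aw φ m k := by
    intro m k
    induction k generalizing m with
    | zero => rfl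
    | succ k ih =>
      rw [← Aw_step, ← ih (m + 1)]
      congr 1
      ring
  have h := this 0 n
  rwa [zero_add] at h

theorem Aw_zero_left (φ : ℕ → R) (n : ℕ) : Aw φ 0 n = Tw φ n 0 [] [] := by
  classical
  unfold Aw
  have hg : ∀ u v : Perm (Fin 0), Good' u v := fun u v => ⟨fun a => a.elim0, fun ⟨a, _⟩ => a.elim0⟩
  simp only [hg, if_true]
  rw [Fintype.sum_unique, Fintype.sum_unique]
  simp [cV, cU]

theorem Aw_zero_right (φ : ℕ → R) (n : ℕ) :
    Aw φ n 0 = Ww φ n 0 0 0 := by
  rw [Aw_zero, Aw_zero_left]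
  exact Tw_eq_Ww φ n 0 0 0 le_rfl

end rows

/-- the weighted count of the distributive intervals -/
theorem weighted {R : Type} [CommSemiring R] (φ : ℕ → R) (n : ℕ) :
    open Classical in
    ∑ x ∈ Finset.univ.filter (fun x : Perm (Fin n) × Perm (Fin n) =>
      WeakLE x.1 x.2 ∧ IsDistributiveInterval x.1 x.2), ∏ b, φ (row x.1 x.2 b) = Ww φ n 0 0 0 := by
  classical
  rw [← Aw_zero_right, Finset.sum_filter, Fintype.sum_prod_type]
  unfold Aw
  refine Finset.sum_congr rfl fun u _ => Finset.sum_congr rfl fun v _ => ?_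
  have h : (WeakLE u v ∧ IsDistributiveInterval u v) ↔ Good' u v :=
    ⟨fun h => ⟨h.1, (dist_iff h.1).1 h.2⟩, fun h => ⟨h.1, (dist_iff h.1).2 h.2⟩⟩
  simp only [h, Tw, mul_one]

/-- the rank generating function -/
theorem ranks (n r : ℕ) :
    Nat.card {x : Perm (Fin n) × Perm (Fin n) // WeakLE x.1 x.2 ∧
      IsDistributiveInterval x.1 x.2 ∧ len x.2 = len x.1 + r} =
    (Ww (fun s => (Polynomial.X : Polynomial ℕ) ^ s) n 0 0 0).coeff r := by
  classical
  rw [← weighted, Polynomial.finsetSum_coeff, Nat.card_eq_fintype_card, Fintype.card_subtype,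
    Finset.card_filter, Finset.sum_filter]
  refine Finset.sum_congr rfl fun x _ => ?_
  by_cases h : WeakLE x.1 x.2 ∧ IsDistributiveInterval x.1 x.2
  · have h1 := sum_row h.1
    rw [if_pos h, Finset.prod_pow_eq_pow_sum, Polynomial.coeff_X_pow]
    refine if_congr ⟨fun h2 => ?_, fun h2 => ⟨h.1, h.2, ?_⟩⟩ rfl rfl
    · have := h2.2.2
      omega
    · omega
  · rw [if_neg h, if_neg]
    rintro ⟨h1, h2, -⟩
    exact h ⟨h1, h2⟩

open Classical in
/-- **Distributive intervals of the weak order: characterisations and the joint distribution of the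
row lengths.**

(1) For `u ≤ v` in the weak order of the permutations of `Fin n` the following are equivalent: `[u, v]`
is a distributive lattice; it is a modular lattice; it is an upper semimodular lattice; it is a lower
semimodular lattice; it contains no hexagon (no three adjacent increasing entries of a `w ≥ u` can be
reversed below `v`); no three entries occur in the order `a, b, c` in the word of `u` and in the order
`c, b, a` in the word of `v`.

(2) For every commutative semiring `R` and every `φ : ℕ → R` the sum over the distributive intervals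
`[u, v]` of the products of `φ (row u v b)` over all entries `b`, where `row u v b` is the number of
`a` with `(a, b)` an inversion of `v` and not of `u`, is `Ww φ n 0 0 0`, given by the recurrence.

(3) The number of distributive intervals of rank `r = ℓ(v) - ℓ(u)` is the coefficient of `X ^ r` in the
polynomial `Ww (fun s => X ^ s) n 0 0 0`.

(4) `d n = Ww 1 n 0 0 0`. -/
theorem result :
    (∀ (n : ℕ) (u v : Perm (Fin n)), WeakLE u v →
      (IsDistributiveInterval u v ↔ Good u v) ∧ (IsModularInterval u v ↔ Good u v) ∧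
      (IsUpperSemimodularInterval u v ↔ Good u v) ∧ (IsLowerSemimodularInterval u v ↔ Good u v) ∧
      (¬ HasHexagon u v ↔ Good u v)) ∧
    (∀ (R : Type) [CommSemiring R] (φ : ℕ → R) (n : ℕ),
      ∑ x ∈ Finset.univ.filter (fun x : Perm (Fin n) × Perm (Fin n) =>
        WeakLE x.1 x.2 ∧ IsDistributiveInterval x.1 x.2), ∏ b, φ (row x.1 x.2 b) =
        Ww φ n 0 0 0) ∧
    (∀ n r : ℕ, Nat.card {x : Perm (Fin n) × Perm (Fin n) // WeakLE x.1 x.2 ∧
      IsDistributiveInterval x.1 x.2 ∧ len x.2 = len x.1 + r} =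
      (Ww (fun s => (Polynomial.X : Polynomial ℕ) ^ s) n 0 0 0).coeff r) ∧
    ∀ n : ℕ, d n = Ww (fun _ => (1 : ℕ)) n 0 0 0 := by
  refine ⟨fun n u v huv => char huv, fun R _ φ n => weighted φ n, ranks, fun n => ?_⟩
  rw [← weighted]
  unfold d
  rw [Nat.card_eq_fintype_card, Fintype.card_subtype]
  simp

end Pool.Agent.Results.MP_1660ca_co.RowLengths
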